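import Mathlib

/-!
MP_b34cfe_co, Q1: the proposed upper bound for the modified EGZ constants of `(ℤ/nℤ)^d` is false:
for `t = 1` it fails for every odd `n ≥ 3` and every `d ≥ 3`.
-/

namespace Pool.Agent.Results.MP_b34cfe_co.OddModuliFail

/-- The assertion of Q1 for given `n`, `t`, `d`: with `ℓ` the least integer `≥ 2 ^ d` that does not
divide `n`, every zero-sum sequence over `(ℤ/nℤ)^d` of length at least `(t + 2 ^ d - 1) n - ℓ + 1`
has a zero-sum subsequence of length `n t`.  (A sequence of length `L` is a map `g` from `Fin L`,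
and a subsequence is given by a set `I` of positions.) -/
def BoundHolds (n t d : ℕ) : Prop :=
  ∀ ℓ : ℕ, IsLeast {k : ℕ | 2 ^ d ≤ k ∧ ¬ k ∣ n} ℓ →
    ∀ (L : ℕ) (g : Fin L → (Fin d → ZMod n)),
      ((t : ℤ) + 2 ^ d - 1) * n - ℓ + 1 ≤ L → ∑ i, g i = 0 →
        ∃ I : Finset (Fin L), I.card = n * t ∧ ∑ i ∈ I, g i = 0

/-- Nine points of `ℤ³`. -/
def T : Fin 9 → Fin 3 → ℕ :=
  ![![0, 0, 2], ![0, 2, 2], ![2, 0, 2], ![2, 2, 2], ![0, 1, 1], ![2, 1, 1], ![1, 0, 1],
    ![1, 2, 1], ![1, 1, 0]]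

/-- The points in `ℤ^(e+3)`. -/
def w (e : ℕ) (x : Fin 9 × (Fin e → Fin 2)) (c : Fin (e + 3)) : ℕ :=
  if h : c.val < 3 then T x.1 ⟨c, h⟩ else (x.2 ⟨c - 3, by omega⟩ : ℕ)

theorem w_le (e : ℕ) (x : Fin 9 × (Fin e → Fin 2)) (c : Fin (e + 3)) : w e x c ≤ 2 := by
  unfold w
  split_ifs with h
  · have : ∀ (i : Fin 9) (j : Fin 3), T i j ≤ 2 := by decide
    exact this _ _
  · have := (x.2 ⟨c - 3, by omega⟩).isLt
    omega

/-- The key property. -/
theorem key (n e : ℕ) (hn : Odd n) (J : Finset ((Fin 9 × (Fin e → Fin 2)) × Fin (n - 1)))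
    (hJ : J.card = n) (h : ∀ c, n ∣ ∑ x ∈ J, w e x.1 c) : False := by
  have hn0 : 0 < n := hn.pos
  -- the last `e` coordinates are constant on `J`
  have hconst : ∀ x ∈ J, ∀ y ∈ J, x.1.2 = y.1.2 := by
    intro x hx y hy
    funext j
    have h1 := h ⟨j.val + 3, by omega⟩
    have h2 : ∀ z : (Fin 9 × (Fin e → Fin 2)) × Fin (n - 1),
        w e z.1 ⟨j.val + 3, by omega⟩ = (z.1.2 j : ℕ) := by
      intro z
      unfold w
      rw [dif_neg (by simp)]
      congr 2
    simp only [h2] at h1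
    by_contra hne
    have hlt : ∀ z ∈ J, (z.1.2 j : ℕ) ≤ 1 := fun z _ => by
      have := (z.1.2 j).isLt
      omega
    -- one of the two values is `0`, the other one is `1`
    have h3 : ∑ z ∈ J, (z.1.2 j : ℕ) < n := by
      have h6 : ∑ z ∈ J, 1 = n := by rw [← Finset.card_eq_sum_ones, hJ]
      refine lt_of_lt_of_eq ?_ h6
      apply Finset.sum_lt_sum hlt
      by_cases h4 : (x.1.2 j : ℕ) = 0
      · exact ⟨x, hx, by omega⟩
      · refine ⟨y, hy, ?_⟩
        by_contra h5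
        apply hne
        ext
        have := hlt x hx
        have := hlt y hy
        omega
    have h4 : 0 < ∑ z ∈ J, (z.1.2 j : ℕ) := by
      apply Finset.sum_pos'
      · intro _ _; omega
      · by_cases h4 : (x.1.2 j : ℕ) = 0
        · refine ⟨y, hy, ?_⟩
          by_contra h5
          apply hne
          ext
          omega
        · exact ⟨x, hx, by omega⟩
    exact absurd (Nat.le_of_dvd h4 h1) (by omega)
  -- multiplicities
  set α : Fin 9 → ℕ := fun i => (J.filter (fun x => x.1.1 = i)).card with hα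
  have hα1 : ∀ i, α i ≤ n - 1 := by
    intro i
    have : (J.filter (fun x => x.1.1 = i)).card ≤ (Finset.univ : Finset (Fin (n - 1))).card := by
      apply Finset.card_le_card_of_injOn (fun x => x.2) (fun _ _ => Finset.mem_univ _)
      intro x hx y hy hxy
      simp only [Finset.coe_filter, Set.mem_ofPred_eq] at hx hy
      ext1
      · ext1
        · rw [hx.2, hy.2]
        · exact hconst x hx.1 y hy.1
      · exact hxy
    simpa using this
  have hα2 : ∑ i, α i = n := by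
    exact (Finset.card_eq_sum_card_fiberwise (f := fun x => x.1.1) (s := J) (t := Finset.univ)
      (fun _ _ => Finset.mem_coe.2 (Finset.mem_univ _))).symm.trans hJ
  have hsum : ∀ c : Fin 3, n ∣ ∑ i, α i * T i c := by
    intro c
    have h1 := h ⟨c.val, by omega⟩
    have h2 : ∀ z : (Fin 9 × (Fin e → Fin 2)) × Fin (n - 1),
        w e z.1 ⟨c.val, by omega⟩ = T z.1.1 c := by
      intro z
      unfold w
      rw [dif_pos c.isLt]
    simp only [h2] at h1
    have h3 : ∑ z ∈ J, T z.1.1 c = ∑ i, α i * T i c := by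
      rw [← Finset.sum_fiberwise J (fun x => x.1.1)]
      apply Finset.sum_congr rfl
      intro i _
      rw [Finset.sum_congr rfl (g := fun _ => T i c), Finset.sum_const, smul_eq_mul]
      intro x hx
      rw [(Finset.mem_filter.1 hx).2]
    rwa [h3] at h1
  obtain ⟨m, rfl⟩ := hn
  have e0 := hsum 0
  have e1 := hsum 1
  have e2 := hsum 2
  have b0 := hα1 0
  have b1 := hα1 1
  have b2 := hα1 2
  have b3 := hα1 3
  have b4 := hα1 4
  have b5 := hα1 5
  have b6 := hα1 6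
  have b7 := hα1 7
  have b8 := hα1 8
  clear_value α
  simp only [Fin.sum_univ_succ, Fin.sum_univ_zero, T] at e0 e1 e2 hα2
  simp at e0 e1 e2 hα2
  clear hα h hconst hJ hsum hα1
  obtain ⟨k0, e0⟩ := e0
  obtain ⟨k1, e1⟩ := e1
  obtain ⟨k2, e2⟩ := e2
  have c0 : k0 ≤ 2 := by
    by_contra hk
    have : (2 * m + 1) * 3 ≤ (2 * m + 1) * k0 := Nat.mul_le_mul_left _ (by omega)
    omega
  have c1 : k1 ≤ 2 := by
    by_contra hk
    have : (2 * m + 1) * 3 ≤ (2 * m + 1) * k1 := Nat.mul_le_mul_left _ (by omega)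
    omega
  have c2 : k2 ≤ 2 := by
    by_contra hk
    have : (2 * m + 1) * 3 ≤ (2 * m + 1) * k2 := Nat.mul_le_mul_left _ (by omega)
    omega
  generalize α 0 = a0 at *
  generalize α 1 = a1 at *
  generalize α 2 = a2 at *
  generalize α 3 = a3 at *
  generalize α 4 = a4 at *
  generalize α 5 = a5 at *
  generalize α 6 = a6 at *
  generalize α 7 = a7 at *
  generalize α 8 = a8 at *
  interval_cases k0 <;> interval_cases k1 <;> interval_cases k2 <;> omega

theorem exists_k (n e : ℕ) (hn : Odd n) (h3 : 3 ≤ n) :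
    ∃ k, k + 1 ≤ 2 ^ e * (n - 1) ∧ Nat.Coprime (9 * 2 ^ e + k) n := by
  have h2 : Nat.Coprime 2 n := (Nat.coprime_two_left).2 hn
  have hp : 1 ≤ 2 ^ e := Nat.one_le_two_pow
  by_cases h : 3 ∣ n
  · by_cases h' : n = 3
    · subst h'
      refine ⟨1, by omega, ?_⟩
      have : 9 * 2 ^ e + 1 = 1 + 3 * (3 * 2 ^ e) := by ring
      rw [this]
      simp
    · have h9 : 9 ≤ n := by
        obtain ⟨m, rfl⟩ := hn
        omega
      refine ⟨7 * 2 ^ e, ?_, ?_⟩
      · have : 2 ^ e * 8 ≤ 2 ^ e * (n - 1) := Nat.mul_le_mul_left _ (by omega)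
        omega
      · have : 9 * 2 ^ e + 7 * 2 ^ e = 2 ^ (e + 4) := by ring
        rw [this]
        exact Nat.Coprime.pow_left _ h2
  · refine ⟨0, ?_, ?_⟩
    · have : 1 * 1 ≤ 2 ^ e * (n - 1) := Nat.mul_le_mul hp (by omega)
      omega
    · rw [Nat.add_zero]
      refine Nat.Coprime.mul_left ?_ (Nat.Coprime.pow_left _ h2)
      have h3n : Nat.Coprime 3 n := (Nat.Prime.coprime_iff_not_dvd Nat.prime_three).2 h
      exact Nat.Coprime.pow_left 2 h3n

theorem fails (n e : ℕ) (hn : Odd n) (h3 : 3 ≤ n) : ¬ BoundHolds n 1 (e + 3) := by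
  intro H
  obtain ⟨k, hk1, hk2⟩ := exists_k n e hn h3
  have hex : ∃ m, 2 ^ (e + 3) ≤ m ∧ ¬ m ∣ n :=
    ⟨2 ^ (e + 3) + n, by omega, fun h => absurd (Nat.le_of_dvd (by omega) h) (by
      have := Nat.one_le_two_pow (n := e + 3)
      omega)⟩
  classical
  have hℓ : IsLeast {m : ℕ | 2 ^ (e + 3) ≤ m ∧ ¬ m ∣ n} (Nat.find hex) :=
    ⟨Nat.find_spec hex, fun m hm => Nat.find_min' hex hm⟩
  have hℓ1 : 2 ^ (e + 3) ≤ Nat.find hex := (Nat.find_spec hex).1
  set N : ℕ := 9 * 2 ^ e * (n - 1) with hN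
  set L : ℕ := N - k with hL
  have hcard : (Finset.univ : Finset ((Fin 9 × (Fin e → Fin 2)) × Fin (n - 1))).card = N := by
    simp [hN, Finset.card_univ]
  have hkN : k ≤ N := by
    have : 2 ^ e * (n - 1) ≤ N := by
      rw [hN, mul_assoc]
      omega
    omega
  obtain ⟨M, -, hM⟩ := Finset.exists_subset_card_eq (s := (Finset.univ :
    Finset ((Fin 9 × (Fin e → Fin 2)) × Fin (n - 1)))) (n := L) (by rw [hcard]; omega)
  set f : Fin L → (Fin 9 × (Fin e → Fin 2)) × Fin (n - 1) :=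
    fun i => ((M.equivFinOfCardEq hM).symm i).1 with hf
  have hfinj : Function.Injective f := fun i j hij =>
    (M.equivFinOfCardEq hM).symm.injective (Subtype.ext hij)
  -- `L` is invertible modulo `n`
  have hunit : IsUnit (L : ZMod n) := by
    have h1 : (L : ZMod n) = -((9 * 2 ^ e + k : ℕ) : ZMod n) := by
      have h2 : ((L + (9 * 2 ^ e + k) : ℕ) : ZMod n) = 0 := by
        have : L + (9 * 2 ^ e + k) = 9 * 2 ^ e * n := by
          have h4 : 9 * 2 ^ e * n = 9 * 2 ^ e * (n - 1) + 9 * 2 ^ e := by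
            conv_lhs => rw [show n = (n - 1) + 1 by omega]
            ring
          omega
        rw [this]
        push_cast
        simp
      push_cast at h2 ⊢
      linear_combination h2
    rw [h1, IsUnit.neg_iff]
    exact (ZMod.isUnit_iff_coprime _ _).2 hk2
  obtain ⟨u, hu⟩ := hunit
  set v : Fin (e + 3) → ZMod n := fun c => -(↑u⁻¹ * ∑ i, (w e (f i).1 c : ZMod n)) with hv
  set g : Fin L → (Fin (e + 3) → ZMod n) := fun i c => (w e (f i).1 c : ZMod n) + v c with hg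
  have hsum : ∑ i, g i = 0 := by
    funext c
    rw [Finset.sum_apply]
    simp only [hg, Finset.sum_add_distrib, Finset.sum_const, Finset.card_univ, Fintype.card_fin,
      nsmul_eq_mul, Pi.zero_apply]
    rw [← hu, hv]
    simp
  obtain ⟨I, hI, hI0⟩ := H _ hℓ L g (by
    have h5 : (8 * 2 ^ e * (n - 1) + 1 + k : ℕ) ≤ N := by
      rw [hN]
      have : 9 * 2 ^ e * (n - 1) = 8 * 2 ^ e * (n - 1) + 2 ^ e * (n - 1) := by ring
      omega
    have h6 : (8 * 2 ^ e * (n - 1) + 1 : ℕ) ≤ L := by omega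
    have h7 : ((8 * 2 ^ e * (n - 1) + 1 : ℕ) : ℤ) = 8 * 2 ^ e * (n - 1) + 1 := by
      push_cast [Nat.cast_sub (show 1 ≤ n by omega)]
      ring
    have h8 : (2 : ℤ) ^ (e + 3) = 8 * 2 ^ e := by ring
    have h9 : ((2 ^ (e + 3) : ℕ) : ℤ) ≤ (Nat.find hex : ℤ) := by exact_mod_cast hℓ1
    have h10 : ((8 * 2 ^ e * (n - 1) + 1 : ℕ) : ℤ) ≤ (L : ℤ) := by exact_mod_cast h6
    push_cast at h9
    rw [h8] at h9 ⊢
    rw [h7] at h10
    push_cast
    linarith) hsum
  rw [Nat.mul_one] at hI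
  refine key n e hn (I.map ⟨f, hfinj⟩) (by rw [Finset.card_map, hI]) ?_
  intro c
  rw [Finset.sum_map, ← ZMod.natCast_eq_zero_iff]
  have h1 := congrFun hI0 c
  rw [Finset.sum_apply] at h1
  simp only [hg, Finset.sum_add_distrib, Finset.sum_const, hI, nsmul_eq_mul, Pi.zero_apply] at h1
  push_cast
  simpa using h1

/-- **Q1 is false.**  For `t = 1` the proposed bound fails for every odd `n ≥ 3` and every
`d ≥ 3`. -/
theorem result : ∀ n d : ℕ, Odd n → 3 ≤ n → 3 ≤ d → ¬ BoundHolds n 1 d := by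
  intro n d hn h3 hd
  obtain ⟨e, rfl⟩ : ∃ e, d = e + 3 := ⟨d - 3, by omega⟩
  exact fails n e hn h3

end Pool.Agent.Results.MP_b34cfe_co.OddModuliFail
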